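import Mathlib
import Pool.Agent.Lib_helper19.Ent.VolExist
import Pool.Agent.Lib_helper19.Ent.Generic

set_option autoImplicit false

/-!
# Infinite topological entropy is generic among volume preserving Sobolev homeomorphisms

`E` is a Euclidean space of dimension at least two, `X` is a closed connected smooth Riemannian
manifold modelled on `E`, with its Riemannian distance and its Riemannian volume, `ι` is a smooth
embedding of `X` into a finite dimensional space `F`, and `0 < p < ∞`.
`SobHomeo E (riemannianVolume E X) ι p` is the space `M^p_λ(X)`: the closure of the volume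
preserving Lipschitz homeomorphisms for the distance
`max (sup ‖ι ∘ f - ι ∘ g‖, ‖D (ι ∘ f) - D (ι ∘ g)‖_p)`, restricted to the elements `ξ` whose
uniform limit `π₁ ξ` is a homeomorphism of `X`.
-/

open Bundle Set MeasureTheory Manifold
open scoped Manifold ContDiff Topology

namespace Pool.Agent.Results.MP_20b3e2_an.GenericInfiniteEntropy

open Pool.Agent.Lib_helper19.Ent

/-- For every `0 < p < ∞` and every closed connected smooth Riemannian manifold `X` of dimension at
least two, the elements of `M^p_λ(X)` with infinite topological entropy contain a countable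
intersection of open dense subsets of `M^p_λ(X)`. -/
theorem result {E : Type*} [NormedAddCommGroup E] [InnerProductSpace ℝ E] [FiniteDimensional ℝ E]
    [MeasurableSpace E] [BorelSpace E] (hd : 2 ≤ Module.finrank ℝ E)
    {X : Type*} [MetricSpace X] [CompactSpace X] [ConnectedSpace X] [ChartedSpace E X]
    [IsManifold 𝓘(ℝ, E) ∞ X] [RiemannianBundle (fun x : X => TangentSpace 𝓘(ℝ, E) x)]
    [IsContMDiffRiemannianBundle 𝓘(ℝ, E) ∞ E (fun x : X => TangentSpace 𝓘(ℝ, E) x)]
    [IsRiemannianManifold 𝓘(ℝ, E) X] [MeasurableSpace X] [BorelSpace X]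
    {F : Type*} [NormedAddCommGroup F] [NormedSpace ℝ F] [FiniteDimensional ℝ F]
    (ι : C(X, F)) (hι : ContMDiff 𝓘(ℝ, E) 𝓘(ℝ, F) ∞ ι) (hinj : Function.Injective ι)
    (_himm : ∀ x, Function.Injective (mfderiv 𝓘(ℝ, E) 𝓘(ℝ, F) ι x))
    (p : ℝ) [Fact (0 < p)] :
    ∃ U : ℕ → Set (SobHomeo E (riemannianVolume E X) ι p),
      (∀ n, IsOpen (U n)) ∧ (∀ n, Dense (U n)) ∧
      ∀ ξ ∈ ⋂ n, U n, ∀ h : X ≃ₜ X, (∀ x, pi1 ξ.1 x = ι (h x)) →
        Dynamics.coverEntropy h univ = ⊤ :=
  generic_infinite_entropy hd (isRiemannianVolume_riemannianVolume E X)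
    (hι.of_le (by norm_cast)) hinj

end Pool.Agent.Results.MP_20b3e2_an.GenericInfiniteEntropy
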